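import Mathlib
import Pool.Agent.Lib.helper22.DG
import Pool.Agent.H.MP_8a4945_al.F
import Pool.Agent.H.MP_e6550d_al.E

namespace Pool.Agent.Results.MP_e6550d_al.Yes

open CategoryTheory Monoid Pool.Agent.Lib.DG Pool.Agent.H.MP_8a4945_al

variable {G ι : Type} [Group G]

abbrev F (X : Finset G) (H : ι → Subgroup G) : Type := Coprod (FreeGroup X) (CoprodI fun i => H i)

def ev (X : Finset G) (H : ι → Subgroup G) : F X H →* G :=
  Coprod.lift (FreeGroup.lift Subtype.val) (CoprodI.lift fun i => (H i).subtype)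

def Letter (X : Finset G) (H : ι → Subgroup G) (s : F X H) : Prop :=
  (∃ x, s = .inl (.of x) ∨ s = (Coprod.inl (.of x))⁻¹) ∨ ∃ i h, s = .inr (.of (i := i) h)

def RelHyp (H : ι → Subgroup G) : Prop :=
  ∃ (X : Finset G) (R : Finset (F X H)) (C : ℕ), Function.Surjective (ev X H) ∧ (∀ r ∈ R, ev X H r = 1) ∧
    ∀ W : List (F X H), (∀ s ∈ W, Letter X H s) → ev X H W.prod = 1 → ∃ L : List (F X H), L.length ≤ C * (W.length + 1) ∧
      (∀ c ∈ L, ∃ f, ∃ r ∈ R, c = f * r * f⁻¹ ∨ c = f * r⁻¹ * f⁻¹) ∧ L.prod = W.prod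

theorem result (S : Type) (R : Set (List S × List S)) (w : List S) (hR : ∀ r ∈ R, r.1 ≠ [] ∧ r.2 ≠ [])
    (ι : Type) [Finite ι] [Nonempty ι] (H : ι → Subgroup (D R w)) (h1 : ∀ i, H i ≠ ⊤) (h2 : ∀ i, Infinite (H i)) (h : RelHyp H) :
    ∃ (A B : Type) (_ : Group A) (_ : Group B), Nontrivial A ∧ Nontrivial B ∧ Nonempty (D R w ≃* Coprod A B) := by
  obtain ⟨X, Q, C, a, b, c⟩ := h
  exact (sys hR w).rh_main ⟨⟨w⟩, 𝟙 _⟩ H h1 h2 Q C a b c

end Pool.Agent.Results.MP_e6550d_al.Yes
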